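import Mathlib
import Pool.Agent.Y856.Sq.Stm

/-! Job 1087 (SQ3, owner helper856): pairs `j < i` with `k ∣ (i - j) (i + j)`. -/

set_option autoImplicit false

namespace Y210.SQ

open Finset
open Pool.Agent.Y856.Sq (S_pairs)

/-- Möbius transform on divisors -/
noncomputable def lam (Φ : ℕ → ℂ) (n : ℕ) : ℂ :=
  ∑ x ∈ n.divisorsAntidiagonal, ((ArithmeticFunction.moebius x.1 : ℤ) : ℂ) * Φ x.2

lemma sum_lam (Φ : ℕ → ℂ) (n : ℕ) (hn : 0 < n) : ∑ i ∈ n.divisors, lam Φ i = Φ n :=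
  (ArithmeticFunction.sum_eq_iff_sum_mul_moebius_eq (f := lam Φ) (g := Φ)).2
    (fun _ _ => rfl) n hn

lemma norm_lam_le (Φ : ℕ → ℂ) (hΦ : ∀ e, ‖Φ e‖ ≤ 1) (k h : ℕ) (hk : k ≠ 0) (hh : h ∣ k) :
    ‖lam Φ h‖ ≤ (k.divisors.card : ℝ) := by
  unfold lam
  refine (norm_sum_le _ _).trans ?_
  have h1 : ∀ x ∈ h.divisorsAntidiagonal,
      ‖((ArithmeticFunction.moebius x.1 : ℤ) : ℂ) * Φ x.2‖ ≤ 1 := by
    intro x _
    rw [norm_mul]
    have h2 : ‖((ArithmeticFunction.moebius x.1 : ℤ) : ℂ)‖ ≤ 1 := by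
      rw [Complex.norm_intCast]
      exact_mod_cast ArithmeticFunction.abs_moebius_le_one
    calc _ ≤ (1 : ℝ) * 1 := mul_le_mul h2 (hΦ _) (norm_nonneg _) zero_le_one
      _ = 1 := one_mul 1
  refine (Finset.sum_le_sum h1).trans ?_
  rw [Finset.sum_const, nsmul_eq_mul, mul_one]
  have h3 : (h.divisorsAntidiagonal).card = h.divisors.card := by
    rw [← Nat.map_div_right_divisors, Finset.card_map]
  rw [h3]
  exact_mod_cast Finset.card_le_card (Nat.divisors_subset_of_dvd hk hh)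

lemma lam_ne_zero (Φ : ℕ → ℂ) (h : ℕ) (hl : lam Φ h ≠ 0) : ∃ e, e ∣ h ∧ Φ e ≠ 0 := by
  by_contra hc
  push Not at hc
  apply hl
  unfold lam
  apply Finset.sum_eq_zero
  intro x hx
  rw [Nat.mem_divisorsAntidiagonal] at hx
  rw [hc x.2 ⟨x.1, by rw [← hx.1]; ring⟩, mul_zero]

/-- the condition of a sum depends only on the gcd: Möbius -/
lemma sum_filter_gcd (k : ℕ) (hk : 1 ≤ k) (Φ : ℕ → ℂ) (R : Finset ℕ) (G : ℕ → ℂ) :
    ∑ r ∈ R, Φ (Nat.gcd r k) * G r = ∑ h ∈ k.divisors, lam Φ h * ∑ r ∈ R.filter (fun r => h ∣ r), G r := by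
  have h1 : ∀ r, Φ (Nat.gcd r k) = ∑ h ∈ k.divisors, if h ∣ r then lam Φ h else 0 := by
    intro r
    rw [← sum_lam Φ _ (Nat.gcd_pos_of_pos_right r hk), ← Finset.sum_filter]
    apply Finset.sum_congr _ (fun _ _ => rfl)
    ext h
    simp only [Nat.mem_divisors, Finset.mem_filter]
    constructor
    · rintro ⟨h1, h2⟩
      exact ⟨⟨h1.trans (Nat.gcd_dvd_right _ _), by omega⟩, h1.trans (Nat.gcd_dvd_left _ _)⟩
    · rintro ⟨⟨h1, h2⟩, h3⟩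
      exact ⟨Nat.dvd_gcd h3 h1, (Nat.gcd_pos_of_pos_right r hk).ne'⟩
  simp_rw [h1, Finset.sum_mul, Finset.mul_sum]
  rw [Finset.sum_comm]
  apply Finset.sum_congr rfl
  intro h _
  rw [Finset.sum_filter]
  apply Finset.sum_congr rfl
  intro r _
  split_ifs <;> simp

lemma dvd_mul_iff_gcd (k p r : ℕ) : k ∣ p * r ↔ k ∣ Nat.gcd p k * Nat.gcd r k := by
  constructor
  · intro h
    have h1 : k ∣ Nat.gcd p k * r := by
      rw [← Nat.gcd_mul_right]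
      exact Nat.dvd_gcd h (Dvd.intro _ rfl)
    rw [← Nat.gcd_mul_left]
    exact Nat.dvd_gcd h1 (Dvd.intro_left _ rfl)
  · intro h
    exact h.trans (mul_dvd_mul (Nat.gcd_dvd_left _ _) (Nat.gcd_dvd_left _ _))

/-- one value of `p` -/
lemma one_p (k p : ℕ) (hk : 1 ≤ k) (hp : 1 ≤ p) (C : ℕ → ℕ → Prop) [∀ a b, Decidable (C a b)]
    (hC : ∀ a b, C a b → a ≤ b) (R : Finset ℕ) (G : ℕ → ℂ) :
    ‖∑ r ∈ R.filter (fun r => k ∣ p * r ∧ C (Nat.gcd r k) (Nat.gcd p k)), G r‖ ≤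
      ∑ h ∈ k.divisors, if k ∣ p * h ∧ k ≤ Nat.gcd p k ^ 2 then
        (k.divisors.card : ℝ) * ‖∑ r ∈ R.filter (fun r => h ∣ r), G r‖ else 0 := by
  classical
  set g := Nat.gcd p k with hg
  set Φ : ℕ → ℂ := fun e => if k ∣ g * e ∧ C e g then 1 else 0 with hΦ
  have h1 : ∑ r ∈ R.filter (fun r => k ∣ p * r ∧ C (Nat.gcd r k) g), G r =
      ∑ r ∈ R, Φ (Nat.gcd r k) * G r := by
    rw [Finset.sum_filter]
    apply Finset.sum_congr rfl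
    intro r _
    simp only [hΦ]
    by_cases hc : k ∣ p * r ∧ C (Nat.gcd r k) g
    · rw [if_pos hc, if_pos ⟨(dvd_mul_iff_gcd k p r).1 hc.1, hc.2⟩, one_mul]
    · rw [if_neg hc, if_neg (fun h => hc ⟨(dvd_mul_iff_gcd k p r).2 h.1, h.2⟩), zero_mul]
  rw [h1, sum_filter_gcd k hk]
  refine (norm_sum_le _ _).trans (Finset.sum_le_sum fun h hh => ?_)
  rw [Nat.mem_divisors] at hh
  have hΦ1 : ∀ e, ‖Φ e‖ ≤ 1 := by
    intro e; simp only [hΦ]; split_ifs <;> simp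
  by_cases hl : lam Φ h = 0
  · rw [hl, zero_mul, norm_zero]
    split_ifs <;> positivity
  · obtain ⟨e, he, hne⟩ := lam_ne_zero Φ h hl
    simp only [hΦ, ne_eq, ite_eq_right_iff, one_ne_zero, imp_false, not_not] at hne
    have hgpos : 0 < g := Nat.gcd_pos_of_pos_left _ (by omega)
    have hhpos : 0 < h := Nat.pos_of_dvd_of_pos hh.1 (by omega)
    have hepos : 0 < e := Nat.pos_of_dvd_of_pos he hhpos
    have c1 : k ∣ p * h :=
      (hne.1.trans (mul_dvd_mul (Nat.gcd_dvd_left p k) he))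
    have c2 : k ≤ g ^ 2 := by
      have := Nat.le_of_dvd (Nat.mul_pos hgpos hepos) hne.1
      have h3 := hC _ _ hne.2
      calc k ≤ g * e := this
        _ ≤ g * g := Nat.mul_le_mul_left _ h3
        _ = g ^ 2 := by ring
    rw [if_pos ⟨c1, c2⟩, norm_mul]
    exact mul_le_mul_of_nonneg_right (norm_lam_le Φ hΦ1 k h (by omega) hh.1) (norm_nonneg _)

lemma step1 (F : ℕ → ℕ → ℂ) (k I0 I1 : ℕ) :
    ∑ i ∈ Ioc I0 I1, ∑ j ∈ (Ioc I0 I1).filter (fun j => j < i ∧ k ∣ i ^ 2 - j ^ 2),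
      F (i - j) (i + j) =
    ∑ z ∈ ((Icc 1 (2 * I1)) ×ˢ (Icc 1 (2 * I1))).filter (fun z : ℕ × ℕ => 2 ∣ z.1 + z.2 ∧
      2 * I0 + z.1 < z.2 ∧ z.1 + z.2 ≤ 2 * I1 ∧ k ∣ z.1 * z.2), F z.1 z.2 := by
  rw [Finset.sum_sigma']
  refine Finset.sum_bij' (fun z _ => ((z.1 - z.2, z.1 + z.2) : ℕ × ℕ))
    (fun z _ => (⟨(z.1 + z.2) / 2, (z.2 - z.1) / 2⟩ : (_ : ℕ) × ℕ)) ?_ ?_ ?_ ?_ ?_
  · rintro ⟨i, j⟩ h
    simp only [Finset.mem_sigma, Finset.mem_filter, Finset.mem_Ioc] at h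
    simp only [Finset.mem_filter, Finset.mem_product, Finset.mem_Icc]
    obtain ⟨⟨h1, h2⟩, ⟨h3, h4⟩, h5, h6⟩ := h
    refine ⟨⟨⟨by omega, by omega⟩, by omega, by omega⟩, by omega, by omega, by omega, ?_⟩
    rw [Nat.sq_sub_sq, mul_comm] at h6
    exact h6
  · rintro ⟨u, v⟩ h
    simp only [Finset.mem_filter, Finset.mem_product, Finset.mem_Icc] at h
    simp only [Finset.mem_sigma, Finset.mem_filter, Finset.mem_Ioc]
    obtain ⟨⟨⟨h1, h2⟩, h3, h4⟩, h5, h6, h7, h8⟩ := h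
    refine ⟨⟨by omega, by omega⟩, ⟨by omega, by omega⟩, by omega, ?_⟩
    rw [Nat.sq_sub_sq]
    have e1 : (u + v) / 2 + (v - u) / 2 = v := by omega
    have e2 : (u + v) / 2 - (v - u) / 2 = u := by omega
    rw [e1, e2, mul_comm]; exact h8
  · rintro ⟨i, j⟩ h
    simp only [Finset.mem_sigma, Finset.mem_filter, Finset.mem_Ioc] at h
    obtain ⟨⟨h1, h2⟩, ⟨h3, h4⟩, h5, h6⟩ := h
    simp only [Sigma.mk.injEq, heq_eq_eq]
    constructor <;> omega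
  · rintro ⟨u, v⟩ h
    simp only [Finset.mem_filter, Finset.mem_product, Finset.mem_Icc] at h
    obtain ⟨⟨⟨h1, h2⟩, h3, h4⟩, h5, h6, h7, h8⟩ := h
    simp only [Prod.mk.injEq]
    constructor <;> omega
  · rintro ⟨i, j⟩ h
    rfl

theorem t : S_pairs := by
  intro F k I0 I1 hk hI
  classical
  rw [step1]
  set S := ((Icc 1 (2 * I1)) ×ˢ (Icc 1 (2 * I1))).filter (fun z : ℕ × ℕ => 2 ∣ z.1 + z.2 ∧
      2 * I0 + z.1 < z.2 ∧ z.1 + z.2 ≤ 2 * I1 ∧ k ∣ z.1 * z.2) with hS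
  rw [← Finset.sum_filter_add_sum_filter_not S (fun z => Nat.gcd z.2 k ≤ Nat.gcd z.1 k)]
  have hA : ∑ z ∈ S.filter (fun z => Nat.gcd z.2 k ≤ Nat.gcd z.1 k), F z.1 z.2 =
      ∑ p ∈ Icc 1 (2 * I1), ∑ r ∈ ((Ioc (2 * I0 + p) (2 * I1 - p)).filter
        (fun r => 2 ∣ p + r)).filter (fun r => k ∣ p * r ∧ Nat.gcd r k ≤ Nat.gcd p k), F p r := by
    refine Finset.sum_finset_product _ _ _ ?_
    rintro ⟨u, v⟩
    simp only [hS, Finset.mem_filter, Finset.mem_product, Finset.mem_Icc, Finset.mem_Ioc]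
    constructor
    · rintro ⟨⟨⟨⟨h1, h2⟩, h3, h4⟩, h5, h6, h7, h8⟩, h9⟩
      exact ⟨⟨h1, h2⟩, ⟨⟨h6, by omega⟩, h5⟩, h8, h9⟩
    · rintro ⟨⟨h1, h2⟩, ⟨⟨h6, h7⟩, h5⟩, h8, h9⟩
      exact ⟨⟨⟨⟨h1, h2⟩, by omega, by omega⟩, h5, h6, by omega, h8⟩, h9⟩
  have hB : ∑ z ∈ S.filter (fun z => ¬ (Nat.gcd z.2 k ≤ Nat.gcd z.1 k)), F z.1 z.2 =
      ∑ p ∈ Icc 1 (2 * I1), ∑ r ∈ ((Ioc 0 (min (p - 2 * I0 - 1) (2 * I1 - p))).filter
        (fun r => 2 ∣ p + r)).filter (fun r => k ∣ p * r ∧ Nat.gcd r k < Nat.gcd p k), F r p := by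
    refine Finset.sum_finset_product_right _ _ _ ?_
    rintro ⟨u, v⟩
    simp only [hS, Finset.mem_filter, Finset.mem_product, Finset.mem_Icc, Finset.mem_Ioc]
    constructor
    · rintro ⟨⟨⟨⟨h1, h2⟩, h3, h4⟩, h5, h6, h7, h8⟩, h9⟩
      exact ⟨⟨h3, h4⟩, ⟨⟨by omega, by omega⟩, by omega⟩, by rw [mul_comm]; exact h8, by omega⟩
    · rintro ⟨⟨h3, h4⟩, ⟨⟨h6, h7⟩, h5⟩, h8, h9⟩
      exact ⟨⟨⟨⟨by omega, by omega⟩, h3, h4⟩, by omega, by omega, by omega,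
        by rw [mul_comm]; exact h8⟩, by omega⟩
  rw [hA, hB, ← Finset.sum_add_distrib]
  refine (norm_sum_le _ _).trans ?_
  have key : ∀ p ∈ Icc 1 (2 * I1),
      ‖∑ r ∈ ((Ioc (2 * I0 + p) (2 * I1 - p)).filter
        (fun r => 2 ∣ p + r)).filter (fun r => k ∣ p * r ∧ Nat.gcd r k ≤ Nat.gcd p k), F p r +
       ∑ r ∈ ((Ioc 0 (min (p - 2 * I0 - 1) (2 * I1 - p))).filter
        (fun r => 2 ∣ p + r)).filter (fun r => k ∣ p * r ∧ Nat.gcd r k < Nat.gcd p k), F r p‖ ≤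
      ∑ h ∈ k.divisors, if k ∣ p * h ∧ k ≤ Nat.gcd p k ^ 2 then
        (k.divisors.card : ℝ) *
        (‖∑ r ∈ (Ioc (2 * I0 + p) (2 * I1 - p)).filter (fun r => h ∣ r ∧ 2 ∣ p + r), F p r‖ +
         ‖∑ r ∈ (Ioc 0 (min (p - 2 * I0 - 1) (2 * I1 - p))).filter
            (fun r => h ∣ r ∧ 2 ∣ p + r), F r p‖) else 0 := by
    intro p hp
    rw [Finset.mem_Icc] at hp
    refine (norm_add_le _ _).trans ?_
    have a1 := one_p k p hk hp.1 (fun a b => a ≤ b) (fun _ _ h => h)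
      ((Ioc (2 * I0 + p) (2 * I1 - p)).filter (fun r => 2 ∣ p + r)) (fun r => F p r)
    have a2 := one_p k p hk hp.1 (fun a b => a < b) (fun _ _ h => le_of_lt h)
      ((Ioc 0 (min (p - 2 * I0 - 1) (2 * I1 - p))).filter (fun r => 2 ∣ p + r)) (fun r => F r p)
    refine (add_le_add a1 a2).trans ?_
    rw [← Finset.sum_add_distrib]
    apply Finset.sum_le_sum
    intro h _
    have f1 : ((Ioc (2 * I0 + p) (2 * I1 - p)).filter (fun r => 2 ∣ p + r)).filter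
        (fun r => h ∣ r) = (Ioc (2 * I0 + p) (2 * I1 - p)).filter (fun r => h ∣ r ∧ 2 ∣ p + r) := by
      ext r; simp only [Finset.mem_filter]; tauto
    have f2 : ((Ioc 0 (min (p - 2 * I0 - 1) (2 * I1 - p))).filter (fun r => 2 ∣ p + r)).filter
        (fun r => h ∣ r) = (Ioc 0 (min (p - 2 * I0 - 1) (2 * I1 - p))).filter
          (fun r => h ∣ r ∧ 2 ∣ p + r) := by
      ext r; simp only [Finset.mem_filter]; tauto
    rw [f1, f2]
    split_ifs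
    · rw [mul_add]
    · rw [add_zero]
  refine (Finset.sum_le_sum key).trans ?_
  rw [Finset.sum_comm, Finset.mul_sum]
  apply Finset.sum_le_sum
  intro h _
  rw [Finset.mul_sum, Finset.sum_filter]

end Y210.SQ
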